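import Pool.Agent.L0h7.MS.Stm3

/-!
MS/ISP: isolated points of the space of marked groups are finitely presented (compare
`Pool/Agent/L0h91/MS/GIN.lean`).
-/

set_option autoImplicit false

open Function

namespace Pool.Agent.L0h89.MS

open Pool.Agent.L0h7.MS

theorem t_ISP (hO : S_OPN) : S_ISP := by
  intro r N hopen
  obtain ⟨S, hS⟩ := hO.2 r _ hopen N rfl
  classical
  set T : Set (FreeGroup (Fin r)) := {w | w ∈ S ∧ w ∈ N.1} with hT
  have hTf : T.Finite := (S.finite_toSet).subset fun w hw => hw.1
  have hle : Subgroup.normalClosure T ≤ N.1 :=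
    Subgroup.normalClosure_le_normal fun w hw => hw.2
  have hinf : Infinite (FreeGroup (Fin r) ⧸ Subgroup.normalClosure T) := by
    have h1 : Surjective (QuotientGroup.map (Subgroup.normalClosure T) N.1 (MonoidHom.id _) hle) := by
      intro y
      obtain ⟨w, rfl⟩ := QuotientGroup.mk_surjective y
      exact ⟨QuotientGroup.mk w, rfl⟩
    have := N.2.2
    exact Infinite.of_surjective _ h1
  have h2 : (⟨Subgroup.normalClosure T, inferInstance, hinf⟩ : Marked r) = N :=
    hS ⟨Subgroup.normalClosure T, inferInstance, hinf⟩ fun w hw =>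
      ⟨fun h => hle h, fun h => Subgroup.subset_normalClosure ⟨hw, h⟩⟩
  rw [← h2]
  exact Group.IsFinitelyPresented.quotient (Subgroup.normalClosure T) ⟨T, hTf, rfl⟩

end Pool.Agent.L0h89.MS
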